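import Pool.Agent.ICP.Final
import Pool.Agent.ICP.EulerIff

/-!
# Archdeacon's question for graphs with independent crossings (IC-planar graphs)

Planarity is used in combinatorial form: a graph is planar if its edges are edges of a spherical
rotation system, and a rotation system is spherical if every set of edges with even degree at all
vertices is the boundary of a set of faces.  For connected rotation systems this is Euler's formula
`V - E + F = 2` (`Pool.Agent.ICP.thm_EulerIff`).
-/

set_option autoImplicit false

namespace Pool.Agent.Results.MP_13ed81_co.IndependentCrossings

open Pool.Agent.ICP

/-- Let `Dr` be a drawing of `G` in which every edge is crossed at most once and every vertex is an end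
of at most one crossed pair of edges.  One can choose one end of every crossing such that the chosen
vertices induce a forest and the remaining vertices induce a planar graph. -/
theorem result (V : Type) (G : SimpleGraph V) (Dr : ICDrawing G) :
    ∃ t : Dr.I → Fin 4, (G.induce {x | ∃ i, x = Dr.cr i (t i)}).IsAcyclic ∧
      IsPlanar (G.induce {x | ∃ i, x = Dr.cr i (t i)}ᶜ) :=
  main_t V G Dr

end Pool.Agent.Results.MP_13ed81_co.IndependentCrossings
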